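import Mathlib
import Pool.Agent.TH165.ACC.NFin

/-!
# Ideals on toric germs: orders along valuations and minimal log discrepancies of triples
-/

set_option autoImplicit false
set_option linter.unusedSectionVars false

namespace Pool.Agent.Q42.AI

open Pool.Agent.TH165.ACC Pool.Agent.H436R3.Fol Pool.Agent.H436R3.KT Pool.Agent.W497.Mld
  MvPolynomial

variable {n d : ℕ} {K : Type} [Field K] [Algebra ℂ K]
  [Algebra (MvPolynomial (Fin n) ℂ) K] [IsFractionRing (MvPolynomial (Fin n) ℂ) K]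
  [IsScalarTower ℂ (MvPolynomial (Fin n) ℂ) K]

/-- `k` is the order of the ideal `a` along the divisor `v`: the least order of its nonzero
elements. -/
def IsOrd {K : Type} [Field K] [Algebra ℂ K] (X : AffVar K) (a : Ideal X.R) (v : DVal K) (k : ℤ) :
    Prop := IsLeast {k | ∃ f ∈ a, (f : K) ≠ 0 ∧ v.ord (f : K) = k} k

/-- `t` is the log discrepancy `a(v, X, B) - ∑ c_i ord_v (a_i)` of the triple
`(X, B, a_1 ^ c_1 ⋯ a_r ^ c_r)`. -/
def IsLogDiscT {K : Type} [Field K] [Algebra ℂ K] {X : AffVar K} {B : EffDiv X} {P : Pt X}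
    (e : LocEq B P) {r : ℕ} (a : Fin r → Ideal X.R) (c : Fin r → ℝ) (v : DVal K) (t : ℝ) : Prop :=
  ∃ (s : ℝ) (k : Fin r → ℤ), IsLogDisc e v s ∧ (∀ i, IsOrd X (a i) v (k i)) ∧
    t = s - ∑ i, c i * (k i : ℝ)

/-- `m` is the minimal log discrepancy of the germ `(X ∋ P, B, a_1 ^ c_1 ⋯ a_r ^ c_r)`. -/
def IsMldT {K : Type} [Field K] [Algebra ℂ K] {X : AffVar K} {B : EffDiv X} {P : Pt X}
    (e : LocEq B P) {r : ℕ} (a : Fin r → Ideal X.R) (c : Fin r → ℝ) (m : ℝ) : Prop :=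
  IsLeast {t | ∃ v, IsOverGerm P v ∧ IsLogDiscT e a c v t} m

/-- The minimal log discrepancy `m` is the log discrepancy of a monomial valuation. -/
def ComputedT {g : ToricGerm n K} {B : EffDiv g.X} (e : LocEq B g.P) {r : ℕ}
    (a : Fin r → Ideal g.X.R) (c : Fin r → ℝ) (m : ℝ) : Prop :=
  ∃ v, IsOverGerm g.P v ∧ IsMonomial n v ∧ IsLogDiscT e a c v m

theorem reg_of_over {X : AffVar K} {P : Pt X} {v : DVal K} (h : IsOverGerm P v) (f : X.R) :
    v.Reg (f : K) := by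
  obtain ⟨⟨S, -, hRS, hS⟩, -⟩ := h
  exact hS.1 _ (hRS f.2)

theorem exists_ord {X : AffVar K} {P : Pt X} {v : DVal K} (h : IsOverGerm P v) {a : Ideal X.R}
    (ha : ∃ f ∈ a, (f : K) ≠ 0) : ∃ k, IsOrd X a v k := by
  obtain ⟨f, hf, hf0⟩ := ha
  obtain ⟨k, hk, hle⟩ := Int.exists_least_of_bdd
    (P := fun k => ∃ f ∈ a, (f : K) ≠ 0 ∧ v.ord (f : K) = k)
    ⟨0, fun z ⟨f, _, hf0, hz⟩ => hz ▸ v.ord_nonneg hf0 (reg_of_over h f)⟩ ⟨_, f, hf, hf0, rfl⟩
  exact ⟨k, hk, fun z hz => hle z hz⟩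

/-- The exponents of the monomials which occur in the elements of the ideal. -/
def supp (g : ToricGerm n K) (a : Ideal g.X.R) : Set (Fin n → ℤ) :=
  {m | ∃ f ∈ a, ∃ (M : Fin n →₀ ℕ) (h : MvPolynomial (Fin n) ℂ),
    (f : K) * ym K (ex M) = jo (Fin n) K h ∧ (∀ s ∈ h.support, ex s - ex M ∈ Cn g.E) ∧
      ∃ s ∈ h.support, m = ex s - ex M}

theorem supp_sub (g : ToricGerm n K) (a : Ideal g.X.R) : supp g a ⊆ Cn g.E := by
  rintro _ ⟨f, -, M, h, -, h1, s, hs, rfl⟩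
  exact h1 s hs

theorem supp_nonempty {g : ToricGerm n K} {a : Ideal g.X.R} (ha : ∃ f ∈ a, (f : K) ≠ 0) :
    (supp g a).Nonempty := by
  obtain ⟨f, hf, hf0⟩ := ha
  obtain ⟨M, h, h1, -, h2⟩ := g.rep f
  have hh : h ≠ 0 := by
    rintro rfl
    rw [map_zero] at h1
    exact mul_ne_zero hf0 (ym_ne _) h1
  obtain ⟨s, hs⟩ := support_nonempty.2 hh
  exact ⟨_, f, hf, M, h, h1, h2, s, hs, rfl⟩

theorem isLeast_iff {A B : Set ℤ} (h1 : A ⊆ B) (h2 : ∀ b ∈ B, ∃ a ∈ A, a ≤ b) (k : ℤ) :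
    IsLeast A k ↔ IsLeast B k := by
  constructor
  · rintro ⟨hk, hle⟩
    refine ⟨h1 hk, fun b hb => ?_⟩
    obtain ⟨a, ha, hab⟩ := h2 b hb
    exact (hle ha).trans hab
  · rintro ⟨hk, hle⟩
    obtain ⟨a, ha, hak⟩ := h2 k hk
    have : a = k := le_antisymm hak (hle (h1 ha))
    exact ⟨this ▸ ha, fun b hb => hle (h1 hb)⟩

/-- The order of an ideal along a monomial valuation. -/
theorem ord_iff {g : ToricGerm n K} (a : Ideal g.X.R) {v : DVal K} (hv : IsMonomial n v) (k : ℤ) :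
    IsOrd g.X a v k ↔ IsLeast ((fun m => pr m (tv v)) '' supp g a) k := by
  apply isLeast_iff
  · rintro _ ⟨f, hf, hf0, rfl⟩
    obtain ⟨M, h, h1, -, h2⟩ := g.rep f
    have hh : h ≠ 0 := by
      rintro rfl
      rw [map_zero] at h1
      exact mul_ne_zero hf0 (ym_ne _) h1
    obtain ⟨s, hs, h3⟩ := (hv h hh).1
    rw [← h1, v.map_mul _ _ hf0 (ym_ne _), ord_ym] at h3
    refine ⟨ex s - ex M, ⟨f, hf, M, h, h1, h2, s, hs, rfl⟩, ?_⟩
    change pr (ex s - ex M) (tv v) = _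
    rw [pr_sub]
    omega
  · rintro _ ⟨_, ⟨f, hf, M, h, h1, h2, s, hs, rfl⟩, rfl⟩
    have hh : h ≠ 0 := by
      rintro rfl
      simp at hs
    have hf0 : (f : K) ≠ 0 := by
      intro h0
      rw [h0, zero_mul] at h1
      exact jo_ne hh h1.symm
    refine ⟨v.ord (f : K), ⟨f, hf, hf0, rfl⟩, ?_⟩
    have h3 := (hv h hh).2 s hs
    rw [← h1, v.map_mul _ _ hf0 (ym_ne _), ord_ym] at h3
    change _ ≤ pr (ex s - ex M) (tv v)
    rw [pr_sub]
    omega

/-- The exponents in the coordinates of a simplicial subcone. -/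
def TT (g : ToricGerm n K) (α : Fin d → Fin g.N) (a : Ideal g.X.R) : Set (Fin d → ℕ) :=
  {q | ∃ m ∈ supp g a, ∀ j, (q j : ℤ) = pr m (g.E (α j))}

theorem TT_nonempty {g : ToricGerm n K} (α : Fin d → Fin g.N) {a : Ideal g.X.R}
    (ha : ∃ f ∈ a, (f : K) ≠ 0) : (TT g α a).Nonempty := by
  obtain ⟨m, hm⟩ := supp_nonempty ha
  exact ⟨fun j => (pr m (g.E (α j))).toNat, m, hm, fun j =>
    Int.toNat_of_nonneg (supp_sub g a hm (α j))⟩

theorem ordAlong_TT {g : ToricGerm n K} (α : Fin d → Fin g.N) (a : Ideal g.X.R) {u : Fin n → ℤ}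
    {w : Fin d → ℝ} (hw : Coord (fun i => g.E (α i)) w u) {k : ℤ}
    (hk : IsLeast ((fun m => pr m u) '' supp g a) k) : ordAlong (TT g α a) w = k := by
  have hval : ∀ m ∈ supp g a, ∀ q : Fin d → ℕ, (∀ j, (q j : ℤ) = pr m (g.E (α j))) →
      ∑ i, (q i : ℝ) * w i = (pr m u : ℝ) := by
    intro m _ q hq
    rw [coord_pr hw]
    refine Finset.sum_congr rfl fun i _ => ?_
    have h1 : (q i : ℝ) = (pr m (g.E (α i)) : ℝ) := by exact_mod_cast hq i
    rw [h1, mul_comm]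
  apply IsLeast.csInf_eq
  obtain ⟨⟨m, hm, hmk⟩, hle⟩ := hk
  refine ⟨⟨fun j => (pr m (g.E (α j))).toNat, ⟨m, hm, fun j =>
    Int.toNat_of_nonneg (supp_sub g a hm (α j))⟩, ?_⟩, ?_⟩
  · have h1 := hval m hm (fun j => (pr m (g.E (α j))).toNat) fun j =>
      Int.toNat_of_nonneg (supp_sub g a hm (α j))
    rw [← hmk]
    exact h1
  · rintro _ ⟨q, ⟨m', hm', hq⟩, rfl⟩
    change (k : ℝ) ≤ ∑ i, (q i : ℝ) * w i
    rw [hval m' hm' q hq]
    exact_mod_cast hle ⟨m', hm', rfl⟩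

/-- The log discrepancies of the monomial valuations for the triple. -/
theorem key_T {g : ToricGerm n K} {B : EffDiv g.X} (e : LocEq B g.P) {Γ : Set ℝ}
    (hB : CoeffIn B Γ) {r : ℕ} (a : Fin r → Ideal g.X.R) (c : Fin r → ℝ)
    (ha : ∀ i, ∃ f ∈ a i, (f : K) ≠ 0) (hc : ∀ i, c i ∈ Γ ∧ 0 ≤ c i) (α : Fin d → Fin g.N) :
    ∃ (s : ℕ) (S : Fin s → Set (Fin d → ℕ)) (b : Fin s → ℝ),
      (∀ j, (S j).Nonempty ∧ 0 ∉ S j ∧ b j ∈ Γ ∧ 0 < b j) ∧
      ∀ v : DVal K, IsMonomial n v → ∀ w : Fin d → ℝ, (∀ i, 0 ≤ w i) →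
        Coord (fun i => g.E (α i)) w (tv v) → ∀ k : Fin r → ℤ, (∀ i, IsOrd g.X (a i) v (k i)) →
        logDisc S b w = -∑ k, e.ρ k * (v.ord (e.g k) : ℝ) - ∑ i, c i * (k i : ℝ) := by
  classical
  obtain ⟨s, S, b, hS, hkey⟩ := key_formula e hB α
  let J := {i : Fin r // 0 ∉ TT g α (a i) ∧ c i ≠ 0}
  let E := Fintype.equivFin J
  refine ⟨s + Fintype.card J, Fin.append S fun t => TT g α (a (E.symm t).1),
    Fin.append b fun t => c (E.symm t).1, fun j => ?_, fun v hv w hw hcw k hk => ?_⟩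
  · refine Fin.addCases (fun i => ?_) (fun i => ?_) j
    · rw [Fin.append_left, Fin.append_left]
      exact hS i
    · rw [Fin.append_right, Fin.append_right]
      exact ⟨TT_nonempty α (ha _), (E.symm i).2.1, (hc _).1,
        lt_of_le_of_ne (hc _).2 (Ne.symm (E.symm i).2.2)⟩
  · have h1 := hkey v hv w hw hcw
    rw [logDisc] at h1 ⊢
    rw [Fin.sum_univ_add]
    simp only [Fin.append_left, Fin.append_right]
    have h2 : ∑ t, c (E.symm t).1 * ordAlong (TT g α (a (E.symm t).1)) w =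
        ∑ i, c i * (k i : ℝ) := by
      rw [Equiv.sum_comp E.symm fun i : J => c i.1 * ordAlong (TT g α (a i.1)) w]
      have h3 : ∀ i, ordAlong (TT g α (a i)) w = k i := fun i =>
        ordAlong_TT α (a i) hcw ((ord_iff (a i) hv (k i)).1 (hk i))
      have h4 : ∑ i ∈ Finset.univ.filter (fun i => 0 ∉ TT g α (a i) ∧ c i ≠ 0),
          c i * ordAlong (TT g α (a i)) w = ∑ i : J, c i.1 * ordAlong (TT g α (a i.1)) w :=
        Finset.sum_subtype _ (fun i => by simp) _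
      rw [← h4, Finset.sum_filter]
      refine Finset.sum_congr rfl fun i _ => ?_
      split_ifs with h5
      · rw [h3]
      · rw [not_and_or, not_not, not_not] at h5
        rcases h5 with h5 | h5
        · rw [← h3, ordAlong_of_zero h5 hw, mul_zero]
        · rw [h5, zero_mul]
    rw [h2]
    linarith

end Pool.Agent.Q42.AI
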