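import Pool.Agent.Q42.AI.Mem

/-!
# ACC for minimal log discrepancies of nondegenerate triples on toric germs
-/

set_option autoImplicit false
set_option linter.unusedSectionVars false

namespace Pool.Agent.Q42.AI

open Pool.Agent.TH165.ACC Pool.Agent.H436R3.Fol Pool.Agent.H436R3.KT Pool.Agent.W497.Mld
  MvPolynomial

variable {n d : ℕ} {K : Type} [Field K] [Algebra ℂ K]
  [Algebra (MvPolynomial (Fin n) ℂ) K] [IsFractionRing (MvPolynomial (Fin n) ℂ) K]
  [IsScalarTower ℂ (MvPolynomial (Fin n) ℂ) K]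

/-- The polynomial `q j`, or `1`. -/
noncomputable def pol {s : ℕ} (q : Fin s → MvPolynomial (Fin n) ℂ) :
    Option (Fin s) → MvPolynomial (Fin n) ℂ
  | none => 1
  | some j => q j

/-- The ideal `a` is generated by monomials `x ^ m` and by products `x ^ m * q j` with `j ∈ J`. -/
def GenBy (g : ToricGerm n K) {s : ℕ} (q : Fin s → MvPolynomial (Fin n) ℂ) (J : Set (Fin s))
    (a : Ideal g.X.R) : Prop :=
  ∃ T : Set ((Fin n → ℤ) × Option (Fin s)), T.Nonempty ∧ (∀ x ∈ T, ∀ j, x.2 = some j → j ∈ J) ∧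
    (∀ x ∈ T, ym K x.1 * jo (Fin n) K (pol q x.2) ∈ g.X.R) ∧
    a = Ideal.span {f : g.X.R | ∃ x ∈ T, (f : K) = ym K x.1 * jo (Fin n) K (pol q x.2)}

/-- The triple `(X, B, a_1 ^ c_1 ⋯ a_r ^ c_r)` is nondegenerate at `P`: there is a nondegenerate
system of polynomials, divided into blocks, such that
* the coefficients of `B` are at most `1`, and its components through `P` which meet the torus are
  components of the zero divisors of the members of the first block;
* each ideal `a_i` is generated by monomials, or `c_i ≤ 1` and `a_i` is generated by monomials and by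
  products of monomials with members of the block of `i`. -/
def NondegT (g : ToricGerm n K) (B : EffDiv g.X) {r : ℕ} (a : Fin r → Ideal g.X.R)
    (c : Fin r → ℝ) : Prop :=
  (∀ v, B.mult v ≤ 1) ∧ ∃ (s : ℕ) (q : Fin s → MvPolynomial (Fin n) ℂ)
    (blk : Fin s → Option (Fin r)), IsNondeg g q ∧
    (∀ v, OnAt g.P v → (∀ i : Fin n, v.ord (cv K i) = 0) → B.mult v ≠ 0 →
      ∃ j, blk j = none ∧ v.Pos (jo (Fin n) K (q j))) ∧
    ∀ i, GenBy g q ∅ (a i) ∨ (c i ≤ 1 ∧ GenBy g q {j | blk j = some i} (a i))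

theorem pol_ne {s : ℕ} {q : Fin s → MvPolynomial (Fin n) ℂ} (hq : ∀ j, q j ≠ 0)
    (o : Option (Fin s)) : pol q o ≠ 0 := by
  cases o with
  | none => exact one_ne_zero
  | some j => exact hq j

/-- The order of an ideal is attained at a generator. -/
theorem gen_ord {g : ToricGerm n K} {s : ℕ} {q : Fin s → MvPolynomial (Fin n) ℂ}
    {a : Ideal g.X.R} {T : Set ((Fin n → ℤ) × Option (Fin s))}
    (ha : a = Ideal.span {f : g.X.R | ∃ x ∈ T, (f : K) = ym K x.1 * jo (Fin n) K (pol q x.2)})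
    {v : DVal K} (hv : ∀ f : g.X.R, v.Reg (f : K)) {k : ℤ} (hk : IsOrd g.X a v k) :
    ∃ x ∈ T, v.ord (ym K x.1 * jo (Fin n) K (pol q x.2)) ≤ k := by
  by_contra hall
  push Not at hall
  have key : ∀ f ∈ a, (f : K) = 0 ∨ k < v.ord (f : K) := by
    intro f hf
    rw [ha] at hf
    induction hf using Submodule.span_induction with
    | mem x hx =>
      obtain ⟨y, hy, hxy⟩ := hx
      right
      rw [hxy]
      exact hall y hy
    | zero => exact Or.inl rfl
    | add x y _ _ hx hy =>
      by_cases hx0 : (x : K) = 0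
      · have h1 : ((x + y : g.X.R) : K) = y := by
          change (x : K) + y = y
          rw [hx0, zero_add]
        rw [h1]
        exact hy
      by_cases hy0 : (y : K) = 0
      · have h1 : ((x + y : g.X.R) : K) = x := by
          change (x : K) + y = x
          rw [hy0, add_zero]
        rw [h1]
        exact hx
      by_cases hxy : (x : K) + y = 0
      · exact Or.inl hxy
      · right
        have h1 := v.map_add _ _ hx0 hy0 hxy
        have h2 := hx.resolve_left hx0
        have h3 := hy.resolve_left hy0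
        change k < v.ord ((x : K) + y)
        omega
    | smul b x _ hx =>
      by_cases hx0 : (x : K) = 0
      · left
        change (b : K) * x = 0
        rw [hx0, mul_zero]
      by_cases hb0 : (b : K) = 0
      · left
        change (b : K) * x = 0
        rw [hb0, zero_mul]
      · right
        change k < v.ord ((b : K) * x)
        rw [v.map_mul _ _ hb0 hx0]
        have h1 := v.ord_nonneg hb0 (hv b)
        have h2 := hx.resolve_left hx0
        omega
  obtain ⟨f, hf, hf0, hfk⟩ := hk.1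
  rcases key f hf with h | h
  · exact hf0 h
  · omega

/-- The comparison of the orders of an ideal. -/
theorem gen_le {g : ToricGerm n K} {s : ℕ} {q : Fin s → MvPolynomial (Fin n) ℂ}
    (hq : ∀ j, q j ≠ 0) {J : Set (Fin s)} {a : Ideal g.X.R} (ha : GenBy g q J a) {v v' : DVal K}
    (hv' : ∀ f : g.X.R, v'.Reg (f : K)) {k : ℤ} (htv : (tv v : Fin n → ℤ) = k • tv v') {κ κ' : ℤ}
    (hκ : IsOrd g.X a v κ) (hκ' : IsOrd g.X a v' κ') :
    ∃ o : Option (Fin s), (∀ j, o = some j → j ∈ J) ∧
      κ - k * κ' ≤ v.ord (jo (Fin n) K (pol q o)) - k * v'.ord (jo (Fin n) K (pol q o)) := by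
  obtain ⟨T, -, hJ, hR, hspan⟩ := ha
  obtain ⟨x, hx, hle⟩ := gen_ord hspan hv' hκ'
  have hne : ym K x.1 * jo (Fin n) K (pol q x.2) ≠ 0 := mul_ne_zero (ym_ne _) (jo_ne (pol_ne hq _))
  have hmem : (⟨_, hR x hx⟩ : g.X.R) ∈ a := by
    rw [hspan]
    exact Ideal.subset_span ⟨x, hx, rfl⟩
  have h1 := hκ.2 ⟨_, hmem, hne, rfl⟩
  have h2 : κ' ≤ v'.ord (ym K x.1 * jo (Fin n) K (pol q x.2)) := hκ'.2 ⟨_, hmem, hne, rfl⟩
  change κ ≤ v.ord (ym K x.1 * jo (Fin n) K (pol q x.2)) at h1
  rw [v.map_mul _ _ (ym_ne _) (jo_ne (pol_ne hq _)), ord_ym, htv, pr_smul_right] at h1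
  rw [v'.map_mul _ _ (ym_ne _) (jo_ne (pol_ne hq _)), ord_ym] at h2 hle
  have h3 : κ' = pr x.1 (tv v') + v'.ord (jo (Fin n) K (pol q x.2)) := le_antisymm h2 hle
  refine ⟨x.2, fun j hj => hJ x hx j hj, ?_⟩
  rw [h3]
  linarith

/-- The minimal log discrepancy of a nondegenerate triple is computed by a monomial valuation. -/
theorem computed_T {g : ToricGerm n K} {B : EffDiv g.X} {e : LocEq B g.P} {r : ℕ}
    {a : Fin r → Ideal g.X.R} {c : Fin r → ℝ} (hc0 : ∀ i, 0 ≤ c i) {m : ℝ} (hm0 : 0 ≤ m)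
    (hm : IsMldT e a c m) (hB : NondegT g B a c) : ComputedT e a c m := by
  classical
  obtain ⟨⟨v, hov, s0, κ, ⟨N, hN, hs0⟩, hκ, hmv⟩, hleast⟩ := hm
  obtain ⟨hB1, s, q, blk, hq, hcomp, hid⟩ := hB
  have hint := ToricGerm.inter_of_over (n := n) hov
  obtain ⟨k, u', hk, hu', htv'⟩ := exists_prim (ne_zero_of_inter hint)
  obtain ⟨v', hv', rfl⟩ := exists_mon (K := K) hu'
  have hint' : g.Inter (tv v') := by
    intro r hr hr0
    have h1 := hint r hr hr0
    rw [htv', pr_smul_right] at h1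
    exact (pos_iff_pos_of_mul_pos h1).1 hk
  have hov' := ToricGerm.overGerm hv' hint'
  have ha : ∀ i, ∃ f ∈ a i, (f : K) ≠ 0 := fun i => by
    obtain ⟨f, hf, hf0, -⟩ := (hκ i).1
    exact ⟨f, hf, hf0⟩
  choose κ' hκ' using fun i => exists_ord hov' (ha i)
  set a' : ℝ := -∑ k, e.ρ k * (v'.ord (e.g k) : ℝ) with ha'
  have hl' : IsLogDisc e v' a' := (logDisc_mon hv').2 rfl
  have h1 : m ≤ a' - ∑ i, c i * (κ' i : ℝ) := hleast ⟨v', hov', a', κ', hl', hκ', rfl⟩
  let D : Fin s → ℤ := fun j => v.ord (jo (Fin n) K (q j)) - k * v'.ord (jo (Fin n) K (q j))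
  have hD0 : ∀ j, 0 ≤ D j := fun j => by
    have := ord_ge_mon hv' hk htv' (hq.1 j)
    simp only [D]
    omega
  have h2 := nondeg_ineq (e := e) hov hN hv' hk htv' hint' hB1 hq
    (Finset.univ.filter fun j => blk j = none) (fun v h3 h4 h5 => by
      obtain ⟨j, hj, hj'⟩ := hcomp v h3 h4 h5
      exact ⟨j, Finset.mem_filter.2 ⟨Finset.mem_univ _, hj⟩, hj'⟩)
  rw [← hs0, ← ha'] at h2
  -- the ideals
  have h3 : ∀ i, c i * ((κ i : ℝ) - k * (κ' i : ℝ)) ≤
      ∑ j ∈ (Finset.univ.filter fun j => blk j = none)ᶜ, if blk j = some i then (D j : ℝ) else 0 := by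
    intro i
    have hnn : 0 ≤ ∑ j ∈ (Finset.univ.filter fun j => blk j = none)ᶜ,
        (if blk j = some i then (D j : ℝ) else 0) := by
      refine Finset.sum_nonneg fun j _ => ?_
      split_ifs
      · exact_mod_cast hD0 j
      · exact le_rfl
    have hcase : ∀ x : ℤ, κ i - k * κ' i ≤ x → x ≤ 0 → c i * ((κ i : ℝ) - k * (κ' i : ℝ)) ≤ 0 := by
      intro x h4 h5
      have h6 : ((κ i : ℝ) - k * (κ' i : ℝ)) ≤ 0 := by exact_mod_cast h4.trans h5
      exact mul_nonpos_of_nonneg_of_nonpos (hc0 i) h6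
    have hnone : v.ord (jo (Fin n) K (pol q none)) - k * v'.ord (jo (Fin n) K (pol q none)) ≤ 0 := by
      change v.ord (jo (Fin n) K 1) - k * v'.ord (jo (Fin n) K 1) ≤ 0
      rw [map_one, v.ord_one, v'.ord_one]
      simp
    rcases hid i with h | ⟨hci, h⟩
    · obtain ⟨o, h4, h5⟩ := gen_le hq.1 h (reg_of_over hov') htv' (hκ i) (hκ' i)
      cases o with
      | none => exact (hcase _ h5 hnone).trans hnn
      | some j => exact absurd (h4 j rfl) (Set.notMem_empty j)
    · obtain ⟨o, h4, h5⟩ := gen_le hq.1 h (reg_of_over hov') htv' (hκ i) (hκ' i)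
      cases o with
      | none => exact (hcase _ h5 hnone).trans hnn
      | some j =>
        have h6 : blk j = some i := h4 j rfl
        have h7 : ((κ i : ℝ) - k * (κ' i : ℝ)) ≤ D j := by
          change κ i - k * κ' i ≤ D j at h5
          exact_mod_cast h5
        have h8 : (0 : ℝ) ≤ D j := by exact_mod_cast hD0 j
        have h9 : (D j : ℝ) ≤ ∑ j ∈ (Finset.univ.filter fun j => blk j = none)ᶜ,
            (if blk j = some i then (D j : ℝ) else 0) := by
          have h10 : j ∈ (Finset.univ.filter fun j => blk j = none)ᶜ := by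
            rw [Finset.mem_compl, Finset.mem_filter]
            rintro ⟨-, h11⟩
            rw [h6] at h11
            exact absurd h11 (by simp)
          have h11 := Finset.single_le_sum
            (f := fun j => if blk j = some i then (D j : ℝ) else 0) (fun j _ => by
              split_ifs
              · exact_mod_cast hD0 j
              · exact le_rfl) h10
          simpa [h6] using h11
        refine le_trans ?_ h9
        rcases le_total 0 ((κ i : ℝ) - k * (κ' i : ℝ)) with h10 | h10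
        · exact (mul_le_of_le_one_left h10 hci).trans h7
        · exact (mul_nonpos_of_nonneg_of_nonpos (hc0 i) h10).trans h8
  have h4 : ∑ i, c i * ((κ i : ℝ) - k * (κ' i : ℝ)) ≤
      ∑ j ∈ (Finset.univ.filter fun j => blk j = none)ᶜ, (D j : ℝ) := by
    refine (Finset.sum_le_sum fun i _ => h3 i).trans ?_
    rw [Finset.sum_comm]
    refine Finset.sum_le_sum fun j _ => ?_
    have h8 : (0 : ℝ) ≤ D j := by exact_mod_cast hD0 j
    cases h : blk j with
    | none => simpa using h8
    | some i0 =>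
      rw [Finset.sum_eq_single i0]
      · simp
      · intro i _ hi
        rw [if_neg]
        intro h9
        exact hi (Option.some_injective _ h9).symm
      · intro h9
        exact absurd (Finset.mem_univ _) h9
  have h5 : ∑ i, c i * ((κ i : ℝ) - k * (κ' i : ℝ)) =
      ∑ i, c i * (κ i : ℝ) - k * ∑ i, c i * (κ' i : ℝ) := by
    rw [Finset.mul_sum, ← Finset.sum_sub_distrib]
    exact Finset.sum_congr rfl fun i _ => by ring
  have h6 : (k : ℝ) * (a' - ∑ i, c i * (κ' i : ℝ)) ≤ m := by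
    have h7 : ∑ j ∈ (Finset.univ.filter fun j => blk j = none)ᶜ,
        ((v.ord (jo (Fin n) K (q j)) - k * v'.ord (jo (Fin n) K (q j)) : ℤ) : ℝ) =
        ∑ j ∈ (Finset.univ.filter fun j => blk j = none)ᶜ, (D j : ℝ) := rfl
    rw [h7] at h2
    rw [hmv]
    rw [h5] at h4
    linarith
  have h7 : (1 : ℝ) ≤ k := by exact_mod_cast hk
  have h8 : a' - ∑ i, c i * (κ' i : ℝ) ≤ m := by nlinarith
  exact ⟨v', hov', hv', a', κ', hl', hκ', le_antisymm h1 h8⟩

/-- **ACC** for minimal log discrepancies of triples on toric germs. -/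
theorem acc_T {Γ : Set ℝ} (hΓ : Pool.Agent.TH165.ACC.IsDCC Γ) :
    IsACC {m : ℝ | 0 ≤ m ∧ ∃ (g : ToricGerm n K) (B : EffDiv g.X) (e : LocEq B g.P) (r : ℕ)
      (a : Fin r → Ideal g.X.R) (c : Fin r → ℝ), CoeffIn B Γ ∧ (∀ i, c i ∈ Γ ∧ 0 ≤ c i) ∧
        IsMldT e a c m ∧ (ComputedT e a c m ∨ NondegT g B a c)} := by
  intro u hu hmem
  refine acc_union (N := n) (S := fun d => {a | ∃ r, a ∈ mldsR d r Γ}) (fun d _ => acc hΓ) u hu
    fun k => ?_
  obtain ⟨h0, g, B, e, r, a, c, hB, hc, hm, hcn⟩ := hmem k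
  exact mld_mem_T e hB hc h0 hm (hcn.elim id fun h => computed_T (fun i => (hc i).2) h0 hm h)

end Pool.Agent.Q42.AI
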