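import Pool.Agent.Q42.AI.Ideal

/-!
# Minimal log discrepancies of triples computed by monomial valuations
-/

set_option autoImplicit false
set_option linter.unusedSectionVars false

namespace Pool.Agent.Q42.AI

open Pool.Agent.TH165.ACC Pool.Agent.H436R3.Fol Pool.Agent.H436R3.KT Pool.Agent.W497.Mld
  MvPolynomial

variable {n d : ℕ} {K : Type} [Field K] [Algebra ℂ K]
  [Algebra (MvPolynomial (Fin n) ℂ) K] [IsFractionRing (MvPolynomial (Fin n) ℂ) K]
  [IsScalarTower ℂ (MvPolynomial (Fin n) ℂ) K]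

/-- The minimal log discrepancies of triples are values of the combinatorial ones. -/
theorem mld_mem_T {g : ToricGerm n K} {B : EffDiv g.X} (e : LocEq B g.P) {Γ : Set ℝ}
    (hB : CoeffIn B Γ) {r : ℕ} {a : Fin r → Ideal g.X.R} {c : Fin r → ℝ}
    (hc : ∀ i, c i ∈ Γ ∧ 0 ≤ c i) {m : ℝ} (hm0 : 0 ≤ m) (hm : IsMldT e a c m)
    (hcomp : ComputedT e a c m) : ∃ d ≤ n, ∃ r, m ∈ mldsR d r Γ := by
  obtain ⟨v0, hov0, hv0, s0, k0, hl, hk0, hmeq⟩ := hcomp
  have ha : ∀ i, ∃ f ∈ a i, (f : K) ≠ 0 := fun i => by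
    obtain ⟨f, hf, hf0, -⟩ := (hk0 i).1
    exact ⟨f, hf, hf0⟩
  have hint0 := ToricGerm.inter_of_over (n := n) hov0
  obtain ⟨d, α, w0, hw0, hc0, D, hD⟩ := exists_simplex hint0.inCone
  obtain ⟨s, S, b, hS, hkey⟩ := key_T e hB a c ha hc α
  refine ⟨d, hD.le, s, GE (fun i => g.E (α i)), S, b, GE_finite hD, hS, IsLeast.isGLB ⟨?_, ?_⟩⟩
  · refine ⟨w0, hw0, ⟨w0, _, rfl, hc0⟩, ?_⟩
    rw [hkey v0 hv0 w0 (fun i => (hw0 i).le) hc0 k0 hk0, hmeq, (logDisc_mon hv0).1 hl]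
  · rintro _ ⟨w, hw, hwG, rfl⟩
    obtain ⟨u, hu⟩ := coord_of_mem hwG
    have hint := inter_of_coord (g := g) hc0 hint0 hu hw
    obtain ⟨k, u', hk, hu', rfl⟩ := exists_prim (hint.ne_zero (pos_of_mon hv0))
    obtain ⟨v, hv, htv⟩ := exists_mon (K := K) hu'
    have hk' : (0 : ℝ) < k := by exact_mod_cast hk
    have hw' : Coord (fun i => g.E (α i)) ((k : ℝ)⁻¹ • w) (tv v) := by
      intro j
      have h1 := hu j
      rw [Pi.smul_apply, smul_eq_mul] at h1
      push_cast at h1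
      rw [htv]
      simp only [Pi.smul_apply, smul_eq_mul, mul_assoc]
      rw [← Finset.mul_sum, h1]
      field_simp
    have hint' : g.Inter (tv v) :=
      inter_of_coord hc0 hint0 hw' fun i => mul_pos (inv_pos.2 hk') (hw i)
    have hov := ToricGerm.overGerm hv hint'
    choose κ hκ using fun i => exists_ord hov (ha i)
    have h3 := hkey v hv _ (fun i => (mul_pos (inv_pos.2 hk') (hw i)).le) hw' κ hκ
    have h4 : m ≤ logDisc S b ((k : ℝ)⁻¹ • w) :=
      hm.2 ⟨v, hov, _, κ, (logDisc_mon hv).2 rfl, hκ, h3⟩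
    have h5 : logDisc S b w = k * logDisc S b ((k : ℝ)⁻¹ • w) := by
      rw [← logDisc_smul _ _ hk'.le, smul_smul, mul_inv_cancel₀ hk'.ne', one_smul]
    rw [h5]
    have h6 : (1 : ℝ) ≤ k := by exact_mod_cast hk
    nlinarith

/-- The inequality for a nondegenerate system, with the orders of the system left over. -/
theorem nondeg_ineq {g : ToricGerm n K} {B : EffDiv g.X} {e : LocEq B g.P} {v v' : DVal K}
    (hov : IsOverGerm g.P v) {N : ℤ} (hN : IsCanOrd g.X.T v N) (hv' : IsMonomial n v') {k : ℤ}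
    (hk : 0 < k) (htv : (tv v : Fin n → ℤ) = k • tv v') (hint : g.Inter (tv v'))
    (hB1 : ∀ v, B.mult v ≤ 1) {s : ℕ} {q : Fin s → MvPolynomial (Fin n) ℂ} (hq : IsNondeg g q)
    (J : Finset (Fin s)) (hcomp : ∀ v, OnAt g.P v → (∀ i : Fin n, v.ord (cv K i) = 0) →
      B.mult v ≠ 0 → ∃ j ∈ J, v.Pos (jo (Fin n) K (q j))) :
    (k : ℝ) * (-∑ k, e.ρ k * (v'.ord (e.g k) : ℝ)) +
      ∑ j ∈ Jᶜ, ((v.ord (jo (Fin n) K (q j)) - k * v'.ord (jo (Fin n) K (q j)) : ℤ) : ℝ) ≤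
        1 + (N : ℝ) - ∑ i, e.ρ i * (v.ord (e.g i) : ℝ) := by
  classical
  set a' : ℝ := -∑ k, e.ρ k * (v'.ord (e.g k) : ℝ) with ha'
  obtain ⟨F, c, hFp, hFd, hc⟩ := fact (n := n) e.ρ e.g e.ne
  let D : MvPolynomial (Fin n) ℂ → ℤ := fun p =>
    v.ord (jo (Fin n) K p) - k * v'.ord (jo (Fin n) K p)
  have hD0 : ∀ p, p ≠ 0 → 0 ≤ D p := fun p hp => by
    have := ord_ge_mon hv' hk htv hp
    simp only [D]
    omega
  have hDm : ∀ p r, p ≠ 0 → r ≠ 0 → D (p * r) = D p + D r := by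
    intro p r hp hr
    simp only [D]
    rw [map_mul, v.map_mul _ _ (jo_ne hp) (jo_ne hr), v'.map_mul _ _ (jo_ne hp) (jo_ne hr)]
    ring
  have hDp : ∀ S : Finset (MvPolynomial (Fin n) ℂ), (∀ p ∈ S, p ≠ 0) →
      (∏ p ∈ S, p) ≠ 0 ∧ D (∏ p ∈ S, p) = ∑ p ∈ S, D p := by
    intro S
    induction S using Finset.induction_on with
    | empty =>
      intro _
      simp only [Finset.prod_empty, Finset.sum_empty, D, map_one, v.ord_one, v'.ord_one]
      simp
    | insert b S hb ih =>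
      intro hS
      obtain ⟨h2, h3⟩ := ih fun p hp => hS p (Finset.mem_insert_of_mem hp)
      have hb0 := hS b (Finset.mem_insert_self b S)
      rw [Finset.prod_insert hb, Finset.sum_insert hb, hDm _ _ hb0 h2, h3]
      exact ⟨mul_ne_zero hb0 h2, rfl⟩
  let F' : Finset (MvPolynomial (Fin n) ℂ) := F.filter fun p => Thr g p ∧ c p ≠ 0
  have hThr : ∀ p ∈ F, Thr g p → 0 ≤ c p ∧ c p ≤ 1 ∧ (c p ≠ 0 → ∃ j ∈ J, p ∣ q j) := by
    rintro p hp ⟨hpp, hcv, hon⟩
    obtain ⟨a, ha, h3⟩ := e.eq _ hon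
    have hL := g.local_prime hpp hcv
    have h4 : a = 0 := ha.unique (can_unit g.e g.hT (by rw [← g.hR]; exact hL) hcv)
    have h5 : ∑ r ∈ F, c r * ((valP K p hpp).ord (jo (Fin n) K r) : ℝ) = c p := by
      rw [Finset.sum_eq_single p]
      · rw [valP_self]; push_cast; ring
      · intro r hr hrp
        rw [valP_other hpp (hFp r hr).ne_zero fun h => hrp (hFd p hp r hr h).symm]
        push_cast; ring
      · intro h; exact absurd hp h
    rw [hc, h5, h4, Int.cast_zero, zero_add] at h3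
    rw [← h3]
    refine ⟨mult_nonneg B _, hB1 _, fun h6 => ?_⟩
    obtain ⟨j, hjJ, hj⟩ := hcomp _ hon hcv h6
    exact ⟨j, hjJ, (valP_pos_iff hpp (q j)).1 hj⟩
  have h2 : ∑ p ∈ F, c p * (D p : ℝ) ≤ ∑ p ∈ F', (D p : ℝ) := by
    rw [Finset.sum_filter]
    refine Finset.sum_le_sum fun p hp => ?_
    have hDp0 : (0 : ℝ) ≤ D p := by exact_mod_cast hD0 p (hFp p hp).ne_zero
    by_cases h3 : Thr g p
    · obtain ⟨h4, h5, -⟩ := hThr p hp h3
      by_cases h6 : c p = 0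
      · rw [h6, zero_mul]
        split_ifs
        · exact hDp0
        · exact le_rfl
      · rw [if_pos ⟨h3, h6⟩]
        nlinarith
    · have h4 : D p = 0 := by
        have := eq_of_not_thr hov hv' hint.inCone hk htv (hFp p hp) h3
        simp only [D]
        omega
      rw [if_neg (fun h => h3 h.1), h4]
      simp
  have h3 : ∑ p ∈ F', D p ≤ ∑ j ∈ J, D (q j) := by
    calc ∑ p ∈ F', D p ≤ ∑ p ∈ F', ∑ j ∈ J, (if p ∣ q j then D p else 0) := by
          refine Finset.sum_le_sum fun p hp => ?_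
          obtain ⟨hpF, hpT, hpc⟩ := Finset.mem_filter.1 hp
          obtain ⟨j, hjJ, hj⟩ := (hThr p hpF hpT).2.2 hpc
          have h4 : (if p ∣ q j then D p else 0) ≤ ∑ j ∈ J, (if p ∣ q j then D p else 0) :=
            Finset.single_le_sum (f := fun j => if p ∣ q j then D p else 0) (fun i _ => by
              split_ifs
              · exact hD0 p (hFp p hpF).ne_zero
              · exact le_rfl) hjJ
          rwa [if_pos hj] at h4
      _ = ∑ j ∈ J, ∑ p ∈ F', (if p ∣ q j then D p else 0) := Finset.sum_comm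
      _ ≤ ∑ j ∈ J, D (q j) := by
          refine Finset.sum_le_sum fun j _ => ?_
          rw [← Finset.sum_filter]
          have h5 : ∀ p ∈ F'.filter (fun p => p ∣ q j), Prime p ∧ p ∈ F := fun p hp => by
            have := (Finset.mem_filter.1 (Finset.mem_filter.1 hp).1).1
            exact ⟨hFp p this, this⟩
          obtain ⟨h6, h7⟩ := hDp (F'.filter fun p => p ∣ q j) fun p hp => (h5 p hp).1.ne_zero
          obtain ⟨r, hr⟩ := prod_dvd (F'.filter fun p => p ∣ q j) (q j) (fun p hp => (h5 p hp).1)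
            (fun p hp p' hp' => hFd p (h5 p hp).2 p' (h5 p' hp').2)
            fun p hp => (Finset.mem_filter.1 hp).2
          have hr0 : r ≠ 0 := by
            rintro rfl
            rw [mul_zero] at hr
            exact hq.1 j hr
          have h8 : D (q j) = D (∏ p ∈ F'.filter (fun p => p ∣ q j), p) + D r := by
            rw [← hDm _ _ h6 hr0]
            exact congrArg D hr
          rw [h8, h7]
          have := hD0 r hr0
          linarith
  have h4 : ∑ j, D (q j) ≤ N + 1 := jac_nondeg hq hov hN hv' hk htv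
  have h9 : ∑ j, D (q j) = ∑ j ∈ J, D (q j) + ∑ j ∈ Jᶜ, D (q j) :=
    (Finset.sum_add_sum_compl J fun j => D (q j)).symm
  have h6 : 1 + (N : ℝ) - ∑ i, e.ρ i * (v.ord (e.g i) : ℝ) - (k : ℝ) * a' =
      1 + (N : ℝ) - ∑ p ∈ F, c p * (D p : ℝ) := by
    have h7 : ∑ p ∈ F, c p * (D p : ℝ) = ∑ p ∈ F, c p * (v.ord (jo (Fin n) K p) : ℝ) -
        (k : ℝ) * ∑ p ∈ F, c p * (v'.ord (jo (Fin n) K p) : ℝ) := by
      rw [Finset.mul_sum, ← Finset.sum_sub_distrib]
      refine Finset.sum_congr rfl fun p _ => ?_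
      simp only [D]
      push_cast
      ring
    rw [h7, ← hc, ← hc, ha']
    ring
  have h8 : (∑ p ∈ F', (D p : ℝ)) + ∑ j ∈ Jᶜ, ((D (q j) : ℤ) : ℝ) ≤ (N : ℝ) + 1 := by
    have h10 : ∑ p ∈ F', D p + ∑ j ∈ Jᶜ, D (q j) ≤ N + 1 := by omega
    exact_mod_cast h10
  change (k : ℝ) * a' + ∑ j ∈ Jᶜ, ((D (q j) : ℤ) : ℝ) ≤ _
  linarith

end Pool.Agent.Q42.AI
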